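import Pool.Agent.R911.Sg.Main

/-!
# One operator on one tensor power implies the conjecture `C⁺`

`C` is a `ℚ`-linear rigid symmetric monoidal category with a symmetric monoidal additive functor to
finite dimensional super vector spaces over a field `K`, for example the category of noncommutative
Chow motives with periodic cyclic homology or topological periodic cyclic homology.

Let `V = V₀ ⊕ V₁` be the realisation of an object `M` and `φ` a function from the vertices of the
cube `{0, 1}^n` to the rational numbers. The diagonal operator with eigenvalues `φ` acts on the
direct summand `V_{x₁} ⊗ … ⊗ V_{xₙ}` of `V ^ n` as multiplication by `φ x`. If the function `φ` is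
not constant, this one operator is algebraic if and only if the conjecture `C⁺` holds for `M`.
-/

set_option autoImplicit false

open CategoryTheory Limits MonoidalCategory

namespace Pool.Agent.Results.MP_8f22fa_ag.DiagonalOperators

open Pool.Agent.Y112.SR Pool.Agent.Y112.KD Pool.Agent.R911.Sg

universe v u w

/-- **Any diagonal operator on a tensor power which is not a scalar decides the conjecture `C⁺`.** -/
theorem result {C : Type u} [Category.{v} C] [Preadditive C] [Linear ℚ C] [MonoidalCategory C]
    [MonoidalPreadditive C] [MonoidalLinear ℚ C] [SymmetricCategory C] [RightRigidCategory C]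
    {K : Type w} [Field K] (R : SuperRealisation C K) (M : C) (n : ℕ) (φ : (Fin n → Bool) → ℚ)
    (hφ : ∃ x y, φ x ≠ φ y) :
    R.CPlus M ↔ ∃ f : tp M n ⟶ tp M n, R.H.map f = diagOp R M n φ :=
  main R M n φ hφ

end Pool.Agent.Results.MP_8f22fa_ag.DiagonalOperators
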