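import Pool.Agent.R484.NCc

/-!
# The parity index of a dg category

`C` is a `ℚ`-linear rigid symmetric monoidal category in which the endomorphisms of the unit object are
the rational numbers, for example the category `NChow(k)_ℚ` of noncommutative Chow motives; `R`, `R₀`,
`R'` are symmetric monoidal additive functors to finite dimensional super vector spaces over fields,
for example `HP_±` in characteristic zero and `TP_±(-)_{1/p}` in characteristic `p`. For a smooth and
proper dg category `A` the endomorphisms `f` of `M = U(A)` are the classes in `K_0(A^op ⊗ A)_ℚ`, and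
`ctr f` is the Euler characteristic of the Hochschild homology of `A` with coefficients in `f`. A
*numerical involution* is an endomorphism `w` such that `w ∘ w` is numerically equivalent to the
identity.

1. For a numerical involution `w` and every realisation `R`, `ctr w` is an integer of absolute value at
   most `dim R(M)`, and congruent to `dim R(M)` modulo two.
2. The parity index `ρ(M)` is the largest of these numbers. There is one endomorphism `P` of `M` such
   that for all realisations `R` the following are equivalent: `C⁺(M)` for `R`; `P` realises the parity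
   operator (`1` on the even part, `-1` on the odd part); `dim R(M) = ρ(M)`; `dim R(M) < ρ(M) + 2`.
   Moreover `ρ(M) ρ(N) ≤ ρ(M ⊗ N)` and `ρ(M) + ρ(N) ≤ ρ(M ⊕ N)` (for instance for a semi-orthogonal
   decomposition of a dg category with the parts `M` and `N`).
3. If `C⁺(M)` holds for one realisation `R'` and `dim R(M) ≤ dim R'(M)` for a second one `R`, then `C⁺(M)`
   holds for `R`, and the dimensions are equal.
-/

set_option autoImplicit false

open CategoryTheory Limits MonoidalCategory

namespace Pool.Agent.Results.MP_8f22fa_ag.ParityIndex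

open Pool.Agent.Y112.SR Pool.Agent.Y112.KD Pool.Agent.R484.NC

universe v u w

theorem result {C : Type u} [Category.{v} C] [Preadditive C] [Linear ℚ C] [MonoidalCategory C]
    [MonoidalPreadditive C] [MonoidalLinear ℚ C] [SymmetricCategory C] [RightRigidCategory C]
    (hU : UnitQ C) {K₀ : Type w} [Field K₀] (R₀ : SuperRealisation C K₀) :
    (∀ (M : C) (w : M ⟶ M), NumInvolution hU w → ∀ {K : Type w} [Field K]
      (R : SuperRealisation C K), ∃ m : ℤ, ctr hU w = m ∧ |m| ≤ totalDim R M ∧
        (2 : ℤ) ∣ (totalDim R M - m)) ∧
    (∃ ρ : C → ℕ,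
      (∀ M, IsGreatest {d : ℚ | ∃ w : M ⟶ M, NumInvolution hU w ∧ ctr hU w = d} (ρ M)) ∧
      (∀ M, ∃ P : M ⟶ M, ∀ {K : Type w} [Field K] (R : SuperRealisation C K),
        ρ M ≤ totalDim R M ∧ Even (totalDim R M - ρ M) ∧
        List.TFAE [R.CPlus M, R.H.map P = R.par M, totalDim R M = ρ M,
          totalDim R M < ρ M + 2]) ∧
      (∀ M N, ρ M * ρ N ≤ ρ (M ⊗ N)) ∧
      (∀ M N S, IsSum M N S → ρ M + ρ N ≤ ρ S)) ∧
    (∀ (M : C) {K : Type w} [Field K] (R : SuperRealisation C K) {K' : Type w} [Field K']
      (R' : SuperRealisation C K'), R'.CPlus M → totalDim R M ≤ totalDim R' M →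
        R.CPlus M ∧ totalDim R M = totalDim R' M) :=
  ⟨fun _ _ hw {_} _ R => involution_bound R hU hw, exists_index hU R₀,
    fun M {_} _ R {_} _ R' h hd => comparison hU M R R' h hd⟩

end Pool.Agent.Results.MP_8f22fa_ag.ParityIndex
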