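import Pool.Agent.R911.Zd.Main

/-!
# The conjecture `C⁺` and the degrees of zeta functions of correspondences

`C` is a `ℚ`-linear rigid symmetric monoidal category in which the endomorphisms of the unit object
are the rational numbers, for example the category `NChow(k)_ℚ` of noncommutative Chow motives, and
`R` is a symmetric monoidal additive functor to finite dimensional super vector spaces over a field
`K`, for example `HP` or `TP[1/p]`. The zeta function of an endomorphism `f` of `M` is the power
series `exp (∑ tr (f ^ k) t ^ k / k)`, the sum over `k ≥ 1`, where `tr (f ^ k)` is the trace in `C`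
(for `M = U(A)`, the Euler characteristic of the Hochschild homology of `A` with coefficients in the
`k`-th iterate of the bimodule `f`).

It is a rational function `P / Q` with rational coefficients, and its total degree, the number of its
zeros and poles with multiplicities, is at most `dim R(M)`. The conjecture `C⁺` holds for `M` if and
only if the total degree is `dim R(M)` for some `f`; and if and only if, for some tensor power
`M ^ m`, `m ≥ 1`, the total degree is at least `(dim R(M)) ^ m - 1` for some endomorphism of `M ^ m`.
-/

set_option autoImplicit false

open CategoryTheory Limits MonoidalCategory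

namespace Pool.Agent.Results.MP_8f22fa_ag.ZetaDegree

open Pool.Agent.Y112.SR Pool.Agent.Y112.KD Pool.Agent.R911.Zd

universe v u w

/-- **The conjecture `C⁺` means that some zeta function has the largest possible degree.** -/
theorem result {C : Type u} [Category.{v} C] [Preadditive C] [Linear ℚ C] [MonoidalCategory C]
    [MonoidalPreadditive C] [MonoidalLinear ℚ C] [SymmetricCategory C] [RightRigidCategory C]
    (hU : UnitQ C) {K : Type w} [Field K] (R : SuperRealisation C K) (M : C) :
    (∀ f : M ⟶ M, (∃ P Q : Polynomial ℚ, IsZeta (traceOfPower hU f) P Q) ∧
      zdeg hU f ≤ Module.finrank K (R.H.obj M)) ∧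
    List.TFAE [R.CPlus M,
      ∃ f : M ⟶ M, zdeg hU f = Module.finrank K (R.H.obj M),
      ∃ (n : ℕ) (f : tp M (n + 1) ⟶ tp M (n + 1)),
        Module.finrank K (R.H.obj M) ^ (n + 1) ≤ zdeg hU f + 1] :=
  ⟨fun f => ⟨zeta_exists R hU f, zdeg_le R hU f⟩, main R hU M⟩

end Pool.Agent.Results.MP_8f22fa_ag.ZetaDegree
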